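import Pool.Agent.N422.LG.ALL4

/-!
# The limit for dense clusters in short intervals under all nonnegative weights

Author: helper422.  In intervals of length `U ≤ C log x` the weights of Maynard detect `≫ log U` primes, more than the average
number `U/log x`.  What is the largest `U` for which sieve weights see, on average, more rough numbers (or primes) in
`(n, n + U]` than a constant times the expected number?

Here we prove that the exponent one is critical: if `U ≥ (log Q)^(1+ε)`, then for EVERY nonnegative weight `w` of level `Q` (a
sum of functions of `n mod d`, `d ≤ Q`; no condition on size or shape) the mean with respect to `w` of the number of `h ≤ U`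
for which `n + h` has no prime factor `≤ Q` is at most `C(ε) U/log Q`.  For `U ≤ log Q` the weights of Maynard and Tao give
`≫ loglog Q`, so that the exponent `1` is the right one.  It is used that nonnegative `w` of level `Q` can be very irregular:
the upper bound sieve for every `n` gives only `U/log U`.  The theorem also limits how much of the maximal gap problem can be
seen on the other side: no nonnegative weight of level `Q` forces a concentration of primes in intervals `(log Q)^(1+ε)`.

Proof.  For the primes `p ≤ y = (log Q)^(1+ε')` an upper bound sieve gives `≪ U/log y` remaining `h` for every `n` (`LG/SUB`).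
The primes in `(y, Q]` are treated in windows `(z, z']` with `∑ 1/p ≍ δ ≍ 1/loglog Q`; fix the class of `n` modulo the product
of the primes `≤ z`, which fixes the set `S` of the `h ≤ U` which remain, and cut `[1, U]` into intervals of length `z`; every
`p` in the window divides at most one `n + h` in each of them.  The kernels of `NW`, which move a place to one of the numbers
not yet hit (analytic in `ζ`, nonnegative on the circle, the identity at `ζ = e^(-t)`), and the inequality of Jensen show that
numbers not yet hit are hit often enough: `|S|` is reduced by the factor `1 + (1 - 2δ) ∑ 1/p` up to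
`O((U/z + 1)(log Q/log z)/δ)` (`LG/UB`, helper137, `LG/ARDG`, helper592, `LG/HITU`, helper602).  As the mean of `|S|` is about
`U/log z` the error is relatively small for `z ≥ (log Q)^(1+ε')` (`LG/RECU2`, `LG/FIN3`).
-/

set_option autoImplicit false

open Finset

namespace Pool.Agent.Results.MP_f9960f_nt.ClustersUnderAllWeights

/-- the weight `w(n) = ∑_{d ≤ Q} c_d(n mod d)`, an arbitrary real weight of level `Q` -/
noncomputable def weight (Q : ℕ) (c : ℕ → ℕ → ℝ) (n : ℕ) : ℝ := ∑ d ∈ Icc 1 Q, c d (n % d)

/-- the mean value of `F` over the period `Q!` -/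
noncomputable def mean (Q : ℕ) (F : ℕ → ℝ) : ℝ := (∑ n ∈ range Q.factorial, F n) / (Q.factorial : ℝ)

/-- the number of the `h`, `1 ≤ h ≤ U`, for which `n + h` has no prime factor `p ≤ Q` -/
def rough (Q U n : ℕ) : ℕ := ((Icc 1 U).filter (fun h => ∀ p ∈ (Icc 1 Q).filter Nat.Prime, ¬ p ∣ n + h)).card

/-- For every `ε > 0` there are `C > 0` and `Q₀` such that for all `Q ≥ Q₀`, all `U ≥ (log Q)^(1+ε)` and every weight `w` of
level `Q` with `w(n) ≥ 0` for all `n`, the mean of `w(n) #{h ≤ U : n + h free of the primes ≤ Q}` is at most `C U/log Q` times
the mean of `w`. -/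
theorem result : ∀ ε : ℝ, 0 < ε → ∃ C : ℝ, 0 < C ∧ ∃ Q₀ : ℕ, ∀ Q : ℕ, Q₀ ≤ Q → ∀ U : ℕ, Real.log Q ^ (1 + ε) ≤ U →
    ∀ c : ℕ → ℕ → ℝ, (∀ n, 0 ≤ weight Q c n) →
    mean Q (fun n => weight Q c n * (rough Q U n : ℝ)) ≤ C * (U / Real.log Q) * mean Q (weight Q c) :=
  Pool.Agent.N422.LG.fin3_all

end Pool.Agent.Results.MP_f9960f_nt.ClustersUnderAllWeights
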