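import Mathlib
import Pool.Agent.N270.CH.Main

set_option autoImplicit false

/-!
# Record prime gaps around column-homogeneous polynomials of the matrices of a given determinant

Let `f(Z) = log Z (log₂ Z)² log₄ Z / (log₃ Z)²`.  Fix a square integer matrix `A₀` of nonzero
determinant `N`, a modulus `q ≥ 1` and finitely many integer polynomials `φ_j` in the entries of a
matrix, homogeneous of degree `w_j(b)` in the entries of each column `b`, not vanishing identically
on the matrices of determinant `N`, no power of one proportional there to a power of another one,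
and each of one of the following three kinds (`Admissible`):

* the differences of the column degrees `w_j(b)` have greatest common divisor `1`;
* the column degrees are not all equal, and `φ_j` is linear in some column `b` and does not vanish
  identically when the column `b` is replaced by another column;
* the differences have greatest common divisor `2`, and `φ_j` is quadratic in some column `b`, with
  a discriminant, as a polynomial in `t` after `t` times another column is added to the column `b`,
  which does not vanish identically.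

Then for all large `Z` there is an integer matrix `A` of determinant `N`, congruent to `A₀` modulo
`q`, with entries at most `Z` in absolute value and outside any prescribed proper algebraic subset
of `{det = N}`, such that for EVERY `j` all the integers `t` at distance at most `c f(Z)` from
`φ_j(A)` are composite, with a prime factor `p ≤ |t| ^ (1/10)`.

The entries and the minors are of the first kind, a quadratic form of rank at least two in the
entries of one column is of the third kind, its polarisation in two columns is of the first kind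
when there are at least three columns.

Method.  The library `R433/SL` gives polynomials `Y(x)`, `x ∈ ℤ ^ d`, with values in `SL`, congruent
to `1` modulo `q`, almost uniformly distributed modulo every large `p`; the matrices are `A₀ Y(x)`.
The diagonal torus of `SL(𝔽_p)` permutes the level sets of `φ_j`, which together with transvections
and a count of the points of conics gives the equidistribution of the nonzero values of `φ_j` modulo
`p`; the pairs are treated by two-dimensional orbits when the column degrees are independent modulo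
constants, and inside an invariant hypersurface otherwise (`Pool/Agent/N270/CH`).  The criterion of
the library (`Y837/SV`) finishes the proof.
-/

namespace Pool.Agent.Results.MP_f9960f_nt.ColumnHomogeneous

/-- `f Z = log Z (log₂ Z)² log₄ Z / (log₃ Z)²`. -/
noncomputable def f (Z : ℝ) : ℝ :=
  Real.log Z * (Real.log (Real.log Z)) ^ 2 * Real.log (Real.log (Real.log (Real.log Z))) /
    (Real.log (Real.log (Real.log Z))) ^ 2

/-- The value of the polynomial `φ` in the entries at the matrix `M`. -/
noncomputable def value {m : ℕ} (φ : MvPolynomial (Fin m × Fin m) ℤ)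
    (M : Matrix (Fin m) (Fin m) ℤ) : ℤ := MvPolynomial.eval (fun e : Fin m × Fin m => M e.1 e.2) φ

/-- `φ` is homogeneous of degree `w b` in the entries of the column `b`, for every `b`. -/
def ColHomogeneous {m : ℕ} (w : Fin m → ℕ) (φ : MvPolynomial (Fin m × Fin m) ℤ) : Prop :=
  ∀ e ∈ φ.support, ∀ b, ∑ a, e (a, b) = w b

/-- `M` with the column `b` replaced by the column `a`. -/
def replace {m : ℕ} (a b : Fin m) (M : Matrix (Fin m) (Fin m) ℤ) : Matrix (Fin m) (Fin m) ℤ :=
  M.updateCol b (fun i => M i a)

/-- `M` with the column `a` added to the column `b`. -/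
def add {m : ℕ} (a b : Fin m) (M : Matrix (Fin m) (Fin m) ℤ) : Matrix (Fin m) (Fin m) ℤ :=
  M.updateCol b (fun i => M i b + M i a)

/-- The discriminant `β² - 4 α γ` of `α + β t + γ t²` with the values `α` at `t = 0`, `α + β + γ` at
`t = 1` and the leading coefficient `γ`; for `φ` of degree two in the column `b` this is the
polynomial `t ↦ φ(M with t times the column a added to the column b)`. -/
noncomputable def discriminant {m : ℕ} (φ : MvPolynomial (Fin m × Fin m) ℤ) (a b : Fin m)
    (M : Matrix (Fin m) (Fin m) ℤ) : ℤ :=
  (value φ (add a b M) - value φ M - value φ (replace a b M)) ^ 2 -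
    4 * value φ M * value φ (replace a b M)

/-- The three kinds of polynomials `φ` with the column degrees `w`, for the determinant `N`. -/
def Admissible {m : ℕ} (N : ℤ) (w : Fin m → ℕ) (φ : MvPolynomial (Fin m × Fin m) ℤ) : Prop :=
  (∃ c : Fin m → ℤ, ∑ b, c b = 0 ∧ ∑ b, c b * (w b : ℤ) = 1) ∨
  ((∃ b b', w b ≠ w b') ∧ ∃ a b, a ≠ b ∧ w b = 1 ∧
    ∃ M : Matrix (Fin m) (Fin m) ℤ, M.det = N ∧ value φ (replace a b M) ≠ 0) ∨
  ((∃ c : Fin m → ℤ, ∑ b, c b = 0 ∧ ∑ b, c b * (w b : ℤ) = 2) ∧ ∃ a b, a ≠ b ∧ w b = 2 ∧
    ∃ M : Matrix (Fin m) (Fin m) ℤ, M.det = N ∧ discriminant φ a b M ≠ 0)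

/-- **Every residue class of integer matrices of a given nonzero determinant contains matrices, even
Zariski densely many, at which the values of all the given column-homogeneous polynomials lie in
the middle of prime gaps of record length.** -/
theorem result {J : Type} [Fintype J] (n q : ℕ) (hq : 0 < q)
    (A₀ : Matrix (Fin (n + 1)) (Fin (n + 1)) ℤ) (hA₀ : A₀.det ≠ 0)
    (w : J → Fin (n + 1) → ℕ) (φ : J → MvPolynomial (Fin (n + 1) × Fin (n + 1)) ℤ)
    (hφ : ∀ j, ColHomogeneous (w j) (φ j))
    (hne : ∀ j, ∃ M : Matrix (Fin (n + 1)) (Fin (n + 1)) ℤ, M.det = A₀.det ∧ value (φ j) M ≠ 0)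
    (hadm : ∀ j, Admissible A₀.det (w j) (φ j))
    (hind : ∀ i j, i ≠ j → ∀ a b : ℕ, 0 < a → 0 < b →
      ∃ M N : Matrix (Fin (n + 1)) (Fin (n + 1)) ℤ, M.det = A₀.det ∧ N.det = A₀.det ∧
        value (φ i) M ^ a * value (φ j) N ^ b ≠ value (φ i) N ^ a * value (φ j) M ^ b) :
    ∃ c : ℝ, 0 < c ∧ ∀ ψ : MvPolynomial (Fin (n + 1) × Fin (n + 1)) ℤ,
      (∃ M : Matrix (Fin (n + 1)) (Fin (n + 1)) ℤ, M.det = A₀.det ∧ value ψ M ≠ 0) →
      ∃ Z₀ : ℝ, ∀ Z : ℕ, Z₀ ≤ Z → ∃ A : Matrix (Fin (n + 1)) (Fin (n + 1)) ℤ,
      A.det = A₀.det ∧ (∀ i j, |A i j| ≤ Z) ∧ (∀ i j, (q : ℤ) ∣ A i j - A₀ i j) ∧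
      value ψ A ≠ 0 ∧
      ∀ j, ∀ t : ℤ, |(t : ℝ) - (value (φ j) A : ℤ)| ≤ c * f Z →
        ∃ p : ℕ, p.Prime ∧ (p : ℤ) ^ 10 ≤ |t| ∧ (p : ℤ) ∣ t :=
  Pool.Agent.N270.CH.colmain n q hq A₀ hA₀ w φ hφ hne hadm hind

end Pool.Agent.Results.MP_f9960f_nt.ColumnHomogeneous
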