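import Mathlib
import Pool.Agent.N735.CL.Fluct

/-!
# Cramér's law for almost all patterns

For a pattern `h = (h_1, ..., h_K)` of positive integers and for `m ≥ 1` the waiting time of `m` is the
least `i` such that `m + h_i` is a prime. For the pattern `1, 2, ..., K` of consecutive integers the
longest waiting time of the `m ≤ X` is `G(X)`, the largest gap between consecutive primes, and Cramér's
conjecture says that it is asymptotic to `log² X`. We prove, unconditionally, that Cramér's law holds
for almost all patterns, with the best possible error term: for almost all patterns `h` with entries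
in `{1, ..., X}` the longest waiting time of the `m ≤ X` is `log² X + O(log X)`; for every `C` it is at
least `log² X + C log X` for a positive proportion of the patterns, so that the error term cannot be
replaced by `o(log X)`, whatever the main term is. For almost all patterns with entries in
`{1, ..., H}`, `X / log^B X ≤ H ≤ X`, the longest waiting time is between `log² H - O(log X)` and
`log² X + O(log X)`.

The lower bound is a second moment argument for the number of the `m` without primes among the
`m + h_i`, with weights which take into account the residues of the pattern modulo the small primes.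
The prime number theorem with an error term, the Hardy-Littlewood asymptotics for the number of
the prime pairs with almost all differences and the upper bound sieve for prime pairs are from the
starting files.
-/

set_option autoImplicit false

namespace Pool.Agent.Results.MP_f9960f_nt.CramerLawForPatterns

open Finset Filter Topology

/-- the patterns of length `K` with entries in `{1, ..., X}` -/
def patterns (X K : ℕ) : Finset (Fin K → ℕ) := Fintype.piFinset fun _ => Icc 1 X

open Classical in
/-- the proportion of the patterns of length `K` with entries in `{1, ..., X}` which have the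
property `B` -/
noncomputable def proportion (X K : ℕ) (B : (Fin K → ℕ) → Prop) : ℝ :=
  (((patterns X K).filter B).card : ℝ) / (patterns X K).card

/-- the waiting time of `m`: the least index (counted from `1`) such that `m + h_i` is a prime,
infinity if there is none -/
noncomputable def wait {K : ℕ} (h : Fin K → ℕ) (m : ℕ) : ℕ∞ :=
  ⨅ i : Fin K, if (m + h i).Prime then (((i : ℕ) + 1 : ℕ) : ℕ∞) else ⊤

/-- the longest waiting time of the `m ≤ X` -/
noncomputable def maxWait {K : ℕ} (X : ℕ) (h : Fin K → ℕ) : ℕ∞ := ⨆ m ∈ Icc 1 X, wait h m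

/-- the largest gap between consecutive primes whose smaller member is at most `X` -/
noncomputable def G (X : ℕ) : ℕ :=
  ((Icc 1 X).filter Nat.Prime).sup fun p => sInf {q : ℕ | q.Prime ∧ p < q} - p

/-! ## The interval pattern -/

lemma next_spec (p : ℕ) : (sInf {q : ℕ | q.Prime ∧ p < q}).Prime ∧ p < sInf {q : ℕ | q.Prime ∧ p < q} := by
  have h : {q : ℕ | q.Prime ∧ p < q}.Nonempty := by
    obtain ⟨q, hq, hqp⟩ := Nat.exists_infinite_primes (p + 1)
    exact ⟨q, hqp, by omega⟩
  exact Nat.sInf_mem h

lemma next_le {p q : ℕ} (hq : q.Prime) (hpq : p < q) : sInf {q : ℕ | q.Prime ∧ p < q} ≤ q :=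
  Nat.sInf_le ⟨hq, hpq⟩

theorem interval (X K : ℕ) (hX : 2 ≤ X) (hK : X ≤ K) :
    maxWait X (fun i : Fin K => (i : ℕ) + 1) = (G X : ℕ∞) := by
  apply le_antisymm
  · unfold maxWait
    apply iSup₂_le
    intro m hm
    rw [mem_Icc] at hm
    set q := sInf {q : ℕ | q.Prime ∧ m < q} with hq
    obtain ⟨h1, h2⟩ := next_spec m
    rw [← hq] at h1 h2
    have hle : q ≤ 2 * m := by
      obtain ⟨p, hp, hp1, hp2⟩ := Nat.exists_prime_lt_and_le_two_mul m (by omega)
      exact (next_le hp hp1).trans hp2
    have hi : q - m - 1 < K := by omega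
    have hw : wait (fun i : Fin K => (i : ℕ) + 1) m ≤ ((q - m : ℕ) : ℕ∞) := by
      unfold wait
      refine (iInf_le _ ⟨q - m - 1, hi⟩).trans ?_
      have e1 : m + (q - m - 1 + 1) = q := by omega
      have e2 : q - m - 1 + 1 = q - m := by omega
      simp only
      rw [e1, if_pos h1, e2]
    refine hw.trans ?_
    -- the largest prime at most `m`
    have hG : q - m ≤ G X := by
      rcases Nat.lt_or_ge m 2 with h3 | h3
      · have hm1 : m = 1 := by omega
        have hq2 : q ≤ 2 := by rw [hq, hm1]; exact next_le Nat.prime_two (by norm_num)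
        have h4 : (fun p => sInf {q : ℕ | q.Prime ∧ p < q} - p) 2 ≤ G X :=
          le_sup (f := fun p => sInf {q : ℕ | q.Prime ∧ p < q} - p) (mem_filter.2 ⟨mem_Icc.2 ⟨by norm_num, hX⟩, Nat.prime_two⟩)
        have h5 := (next_spec 2).2
        simp only at h4
        omega
      · have hne : ((Icc 1 m).filter Nat.Prime).Nonempty := ⟨2, mem_filter.2 ⟨mem_Icc.2 ⟨by norm_num, h3⟩, Nat.prime_two⟩⟩
        obtain ⟨p, hpm, hmax⟩ : ∃ p ∈ (Icc 1 m).filter Nat.Prime, ∀ x ∈ (Icc 1 m).filter Nat.Prime, x ≤ p :=
          ⟨_, max'_mem _ hne, fun x hx => le_max' _ x hx⟩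
        rw [mem_filter, mem_Icc] at hpm
        have h4 : (fun p => sInf {q : ℕ | q.Prime ∧ p < q} - p) p ≤ G X :=
          le_sup (f := fun p => sInf {q : ℕ | q.Prime ∧ p < q} - p) (mem_filter.2 ⟨mem_Icc.2 ⟨hpm.1.1, hpm.1.2.trans hm.2⟩, hpm.2⟩)
        simp only at h4
        have h5 : q ≤ sInf {q : ℕ | q.Prime ∧ p < q} := by
          obtain ⟨h6, h7⟩ := next_spec p
          apply next_le h6
          by_contra hc
          push Not at hc
          have h8 : sInf {q : ℕ | q.Prime ∧ p < q} ≤ p :=
            hmax _ (mem_filter.2 ⟨mem_Icc.2 ⟨h6.pos, hc⟩, h6⟩)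
          omega
        have h6 := hpm.1.2
        omega
    exact_mod_cast hG
  · obtain ⟨p, hp, hpG⟩ : ∃ p ∈ (Icc 1 X).filter Nat.Prime, G X = sInf {q : ℕ | q.Prime ∧ p < q} - p := by
      have hne : ((Icc 1 X).filter Nat.Prime).Nonempty := ⟨2, mem_filter.2 ⟨mem_Icc.2 ⟨by norm_num, hX⟩, Nat.prime_two⟩⟩
      obtain ⟨p, hp, he⟩ := exists_mem_eq_sup _ hne (fun p => sInf {q : ℕ | q.Prime ∧ p < q} - p)
      exact ⟨p, hp, he⟩
    rw [mem_filter] at hp
    unfold maxWait
    refine le_trans ?_ (le_iSup₂ (f := fun m (_ : m ∈ Icc 1 X) => wait (fun i : Fin K => (i : ℕ) + 1) m) p hp.1)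
    unfold wait
    apply le_iInf
    intro i
    split_ifs with h1
    · have h1' : (p + ((i : ℕ) + 1)).Prime := h1
      have h2 := next_le h1' (show p < p + ((i : ℕ) + 1) by omega)
      have h3 : G X ≤ (i : ℕ) + 1 := by rw [hpG]; omega
      exact_mod_cast h3
    · exact le_top

/-! ## The comparison with the auxiliary files -/

lemma prop_eq (X K : ℕ) (B : (Fin K → ℕ) → Prop) : proportion X K B = Pool.Agent.N735.CL.PK X K B := by
  classical
  rw [Pool.Agent.N735.CL.PK_eq]
  unfold proportion patterns
  have h := Pool.Agent.N735.CL.card_Om X K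
  unfold Pool.Agent.N735.CL.Om at h ⊢
  rw [h]
  push_cast
  rfl

theorem result :
    -- the pattern of consecutive integers
    (∀ X K : ℕ, 2 ≤ X → X ≤ K → maxWait X (fun i : Fin K => (i : ℕ) + 1) = (G X : ℕ∞)) ∧
    -- almost all patterns
    (∀ (B : ℕ) (θ : ℝ), 0 < θ → ∃ C : ℝ, 0 < C ∧ ∀ᶠ X : ℕ in atTop, ∀ H : ℕ,
      (X : ℝ) / Real.log X ^ B ≤ H → H ≤ X → ∀ K : ℕ, Real.log X ^ 2 + C * Real.log X ≤ K →
        proportion H K (fun h => ¬ ∃ g : ℕ, maxWait X h = g ∧
          Real.log H ^ 2 - C * Real.log X ≤ g ∧ (g : ℝ) ≤ Real.log X ^ 2 + C * Real.log X) ≤ θ) ∧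
    -- the error term is best possible
    (∀ C : ℝ, ∃ c : ℝ, 0 < c ∧ ∀ᶠ X : ℕ in atTop, ∀ K : ℕ,
      Real.log X ^ 2 + C * Real.log X ≤ K →
        c ≤ proportion X K (fun h => ∃ n : ℕ, Real.log X ^ 2 + C * Real.log X ≤ n ∧
          (n : ℕ∞) ≤ maxWait X h)) := by
  refine ⟨interval, ?_, ?_⟩
  · intro B θ hθ
    obtain ⟨C, hC, h⟩ := Pool.Agent.N735.CL.wait_lawH B θ hθ
    refine ⟨C, hC, ?_⟩
    filter_upwards [h] with X hX H h1 h2 K hK
    rw [prop_eq]
    exact hX H h1 h2 K hK
  · intro C
    obtain ⟨c, hc, h⟩ := Pool.Agent.N735.CL.wait_fluct C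
    refine ⟨c, hc, ?_⟩
    filter_upwards [h] with X hX K hK
    rw [prop_eq]
    exact hX K hK

end Pool.Agent.Results.MP_f9960f_nt.CramerLawForPatterns
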