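import Pool.Agent.N914.WU.PolyGaps

set_option autoImplicit false

/-!
# Nonlinear fractional parts of the differences of primes in record blocks

Let `f(x) = log x (log₂ x)² log₄ x / (log₃ x)²`, the size of the largest gaps that are known to
occur among the primes up to `x`, and let `P_1, …, P_r` be real polynomials such that all the
combinations `h_1 P_1 + ⋯ + h_r P_r` with integers `h_l`, not all `0`, have an irrational
coefficient in degree at least `2` (for instance `√2 t²`, `√3 t²`, `t³ / π + t / 2`).

For all `k`, `ε`, for all large `x` and for ALL targets `θ_1, …, θ_r` there are at least `x^(7/8)`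
blocks of `k + 1` consecutive primes up to `x`, with all `k` gaps at least `c f(x)`, such that for
ALL differences `d` of two primes of the block and all `l` the number `P_l(d)` is within `ε` of
`θ_l` modulo one.  In particular the fractional parts of `α d²`, `d` a prime gap `≥ c f(x)`, are
dense modulo one, together with those of any finite family of such polynomials.  Moreover the block
can be taken in a translate of any given set `E` of integers which has density at least `δ` in some
interval of length at least `f(x)`; for instance `E = q ℤ` (all differences divisible by `q`), or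
`E` a Bohr set (the numbers `α_i d` are within `ε` of `0` modulo one as well).  (Degree at least two
is necessary: linear fractional parts of the differences of three numbers are not independent.)

The set `{d | P_l(d) ≈ θ_l}` may be replaced by any set `D` of natural numbers which has a
Fourier-uniform minorant of positive mean (first part of the theorem).

Method.  In a set of `q ℤ + r`, dense in an interval of length `≍ f(x)`, one finds, for any given
`K`, a set of `K` integers all of whose differences belong to `D` and are `≫ f(x)`: for dense sets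
`A`, `B` a positive proportion of the differences `b - a` are in `D` (Fourier analysis), and this
implies that there are cliques (greedy algorithm).  The sieve of helper101
(`Pool.Agent.TH101.RG.core`, after Maynard, Tao and the construction of the starting library)
isolates `k + 1` primes at positions of this set, inside record windows.  The uniform bound
`∑_{t < N} e(h P(t) + α t) = o(N)` is Weyl's theorem, uniformly in the coefficients of lower
degree.
-/

namespace Pool.Agent.Results.MP_f9960f_nt.NonlinearFractionalParts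

/-- The record scale `f(x) = log x (log₂ x)² log₄ x / (log₃ x)²` (iterated natural logarithms). -/
noncomputable def f (x : ℝ) : ℝ :=
  Real.log x * (Real.log (Real.log x)) ^ 2 * Real.log (Real.log (Real.log (Real.log x))) /
    (Real.log (Real.log (Real.log x))) ^ 2

/-- The `i`-th prime, numbered from `p 0 = 2`. -/
noncomputable def p (i : ℕ) : ℕ := Nat.nth Nat.Prime i

/-- The primes `p_n, …, p_(n+k)` are at most `x` and the `k` gaps between them are at least
`c f(x)`. -/
def RecordBlock (c x : ℝ) (k n : ℕ) : Prop :=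
  (p (n + k) : ℝ) ≤ x ∧ ∀ i < k, c * f x ≤ (p (n + i + 1) : ℝ) - p (n + i)

/-- The primes `p_n, …, p_(n+k)` are in a translate of the set `E`. -/
def InTranslate (E : Set ℤ) (k n : ℕ) : Prop := ∃ s : ℤ, ∀ i ≤ k, (p (n + i) : ℤ) + s ∈ E

/-- Some interval of length at least `z` contains at least `δ` times its length elements of `E`. -/
def DenseSomewhere (E : Set ℤ) (δ z : ℝ) : Prop :=
  ∃ (u : ℤ) (H : ℕ), z ≤ H ∧ δ * H ≤ (Set.ncard {t : ℕ | t < H ∧ u + t ∈ E} : ℝ)

/-- There is a real function `ψ ≤ 1`, `ψ ≤ 0` outside `D`, with mean `κ > 0` and such that `ψ - κ`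
has no correlation with linear phases: `∑_{t < N} (ψ(t) - κ) e(t α) = o(N)`, uniformly in `α`. -/
def UniformMinorant (D : Set ℕ) : Prop :=
  ∃ (ψ : ℕ → ℝ) (κ : ℝ), 0 < κ ∧ (∀ t, ψ t ≤ 1) ∧ (∀ t, t ∉ D → ψ t ≤ 0) ∧
    ∀ ε : ℝ, 0 < ε → ∃ N₀ : ℕ, ∀ N : ℕ, N₀ ≤ N → ∀ α : ℝ,
      ‖∑ t ∈ Finset.range N, ((ψ t : ℂ) - κ) * Complex.exp (2 * Real.pi * ((t : ℝ) * α : ℝ) *
        Complex.I)‖ ≤ ε * N

/-- **Differences in uniform sets, and nonlinear fractional parts, at record gaps.**

1. Let `D` be a set of natural numbers with a Fourier-uniform minorant of positive mean, `δ > 0`.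
There are `c > 0`, `x₀` such that for all `x ≥ x₀` and every set `E` of integers which has density
at least `δ` in some interval of length at least `f(x)` there are at least `x^(7/8)` blocks
`p_n, …, p_(n+k)` of consecutive primes up to `x`, with gaps at least `c f(x)`, in a translate of
`E`, all of whose differences belong to `D`.

2. Let `P_1, …, P_r` be real polynomials all of whose nontrivial integral combinations have an
irrational coefficient in degree at least `2`, `ε > 0`, `δ > 0`.  There are `c > 0`, `x₀` such that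
for all `x ≥ x₀`, all real `θ_1, …, θ_r` and every such set `E` there are at least `x^(7/8)` such
blocks for which all `P_l(d) - θ_l`, `d` any difference of two primes of the block, are within `ε`
of an integer. -/
theorem result :
    (∀ (k : ℕ) (D : Set ℕ), UniformMinorant D → ∀ δ : ℝ, 0 < δ →
      ∃ c : ℝ, 0 < c ∧ ∃ x₀ : ℝ, ∀ x : ℝ, x₀ ≤ x → ∀ E : Set ℤ, DenseSomewhere E δ (f x) →
        x ^ (7 / 8 : ℝ) ≤ (Set.ncard {n : ℕ | RecordBlock c x k n ∧ InTranslate E k n ∧
          ∀ i j, i < j → j ≤ k → p (n + j) - p (n + i) ∈ D} : ℝ)) ∧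
    ∀ (k r : ℕ) (P : Fin r → Polynomial ℝ),
      (∀ h : Fin r → ℤ, h ≠ 0 → ∃ i, 2 ≤ i ∧ Irrational ((∑ l, (h l : ℝ) • P l).coeff i)) →
      ∀ ε : ℝ, 0 < ε → ∀ δ : ℝ, 0 < δ →
      ∃ c : ℝ, 0 < c ∧ ∃ x₀ : ℝ, ∀ x : ℝ, x₀ ≤ x → ∀ (θ : Fin r → ℝ) (E : Set ℤ),
        DenseSomewhere E δ (f x) →
        x ^ (7 / 8 : ℝ) ≤ (Set.ncard {n : ℕ | RecordBlock c x k n ∧ InTranslate E k n ∧
          ∀ i j, i < j → j ≤ k → ∀ l, ∃ m : ℤ,
            |(P l).eval ((p (n + j) : ℝ) - p (n + i)) - θ l - m| < ε} : ℝ) := by
  classical
  have hcard : ∀ (E : Set ℤ) (u : ℤ) (H : ℕ), (Set.ncard {t : ℕ | t < H ∧ u + t ∈ E}) =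
      ((Finset.range H).filter (fun t : ℕ => u + t ∈ E)).card := by
    intro E u H
    rw [← Set.ncard_coe_finset]
    congr 1
    ext t
    simp
  constructor
  · intro k D hD δ hδ
    have hD' : Pool.Agent.N914.WU.FMin D := by
      obtain ⟨ψ, κ, h1, h2, h3, h4⟩ := hD
      refine ⟨ψ, κ, h1, h2, h3, fun ε hε => ?_⟩
      obtain ⟨N₀, hN₀⟩ := h4 ε hε
      refine ⟨N₀, fun N hN α => ?_⟩
      simp only [Pool.Agent.N914.WU.e_eq]
      exact hN₀ N hN α
    obtain ⟨c, hc, h⟩ := Pool.Agent.N914.WU.criterion k D hD' δ hδ
    obtain ⟨x₀, hx₀⟩ := Filter.eventually_atTop.1 h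
    refine ⟨c, hc, x₀, fun x hx E hE => ?_⟩
    obtain ⟨u, H, h1, h2⟩ := hE
    rw [hcard] at h2
    exact hx₀ x hx E u H h1 h2
  · intro k r P hP ε hε δ hδ
    obtain ⟨c, hc, h⟩ := Pool.Agent.N914.WU.poly_gaps k r P hP ε hε δ hδ
    obtain ⟨x₀, hx₀⟩ := Filter.eventually_atTop.1 h
    refine ⟨c, hc, x₀, fun x hx θ E hE => ?_⟩
    obtain ⟨u, H, h1, h2⟩ := hE
    rw [hcard] at h2
    exact hx₀ x hx θ E u H h1 h2

end Pool.Agent.Results.MP_f9960f_nt.NonlinearFractionalParts
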